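import Mathlib
import Pool.Agent.H590.PL.Stm

/-!
# Task DPA of MP_85210c_gt (planar case): the derivative of `A` in `p`

`theorem DPA (h : S_IA) : S_DPA`.
-/

set_option autoImplicit false

noncomputable section

open MeasureTheory Filter Topology Set
open scoped BigOperators

namespace Pool.Agent.H553.PL.DPA

open H590PL

/-! ### The power function in the exponent -/

theorem hd (t : ℝ) (ht : 0 ≤ t) (q : ℝ) (hq : q ≠ 0) :
    HasDerivAt (fun s : ℝ => t ^ s) (t ^ q * Real.log t) q := by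
  rcases eq_or_lt_of_le ht with h | h
  · subst h
    have e : (0 : ℝ) ^ q * Real.log 0 = 0 := by simp
    rw [e]
    have h1 : (fun s : ℝ => (0 : ℝ) ^ s) =ᶠ[𝓝 q] fun _ => 0 := by
      have : ∀ᶠ s in 𝓝 q, s ≠ 0 := isOpen_ne.mem_nhds hq
      filter_upwards [this] with s hs
      exact Real.zero_rpow hs
    exact (hasDerivAt_const q (0 : ℝ)).congr_of_eventuallyEq h1
  · exact (Real.hasStrictDerivAt_const_rpow h q).hasDerivAt

theorem hd2 (t : ℝ) (ht : 0 ≤ t) (q : ℝ) (hq : q ≠ 2) :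
    HasDerivAt (fun s : ℝ => t ^ (s - 2)) (t ^ (q - 2) * Real.log t) q := by
  have h1 := hd t ht (q - 2) (sub_ne_zero.2 hq)
  have h2 : HasDerivAt (fun s : ℝ => s - 2) 1 q := (hasDerivAt_id q).sub_const 2
  have h3 := HasDerivAt.comp q h1 h2
  rw [mul_one] at h3
  exact h3

section
variable {κ : Type} [Fintype κ]

/-- the integrand of `A` -/
def Fq (v : κ → P2) (q : ℝ) (x : P2) : ℝ := Real.exp (-(Ph q v one x)) * DD q v one x

/-- derivative of the exponent -/
def St (v : κ → P2) (q : ℝ) (x : P2) : ℝ :=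
  ∑ k, |ip (v k) x| ^ q * Real.log |ip (v k) x|

/-- derivative of the integrand -/
def Fd (v : κ → P2) (q : ℝ) (x : P2) : ℝ :=
  Real.exp (-(Ph q v one x)) * ((1 / 2) * ∑ i, ∑ j, dt (v i) (v j) ^ 2 *
    (|ip (v i) x| ^ (q - 2) * |ip (v j) x| ^ (q - 2)) *
      (2 * q + q ^ 2 * (Real.log |ip (v i) x| + Real.log |ip (v j) x| - St v q x)))

theorem Ph_one (q : ℝ) (v : κ → P2) (x : P2) : Ph q v one x = ∑ k, |ip (v k) x| ^ q := by
  simp [Ph, one]

theorem DD_one (q : ℝ) (v : κ → P2) (x : P2) :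
    DD q v one x = (1 / 2) * ∑ i, ∑ j, dt (v i) (v j) ^ 2 *
      (|ip (v i) x| ^ (q - 2) * |ip (v j) x| ^ (q - 2)) * q ^ 2 := by
  unfold DD one
  congr 1
  refine Finset.sum_congr rfl fun i _ => Finset.sum_congr rfl fun j _ => ?_
  ring

theorem hasDeriv_Fq (v : κ → P2) (q : ℝ) (hq1 : 1 < q) (hq2 : q < 2) (x : P2) :
    HasDerivAt (fun s => Fq v s x) (Fd v q x) q := by
  have hPh : HasDerivAt (fun s => Ph s v one x) (St v q x) q := by
    have e : (fun s => Ph s v one x) = fun s => ∑ k, |ip (v k) x| ^ s := by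
      funext s; exact Ph_one s v x
    rw [e]
    exact HasDerivAt.fun_sum fun k _ => hd _ (abs_nonneg _) q (by linarith)
  have hDD : HasDerivAt (fun s => DD s v one x)
      ((1 / 2) * ∑ i, ∑ j, dt (v i) (v j) ^ 2 *
        (|ip (v i) x| ^ (q - 2) * |ip (v j) x| ^ (q - 2)) *
          (2 * q + q ^ 2 * (Real.log |ip (v i) x| + Real.log |ip (v j) x|))) q := by
    have e : (fun s => DD s v one x) = fun s => (1 / 2) * ∑ i, ∑ j, dt (v i) (v j) ^ 2 *
      (|ip (v i) x| ^ (s - 2) * |ip (v j) x| ^ (s - 2)) * s ^ 2 := by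
      funext s; exact DD_one s v x
    rw [e]
    refine HasDerivAt.const_mul (1 / 2 : ℝ) ?_
    refine HasDerivAt.fun_sum fun i _ => HasDerivAt.fun_sum fun j _ => ?_
    have h1 := hd2 |ip (v i) x| (abs_nonneg _) q (by linarith)
    have h2 := hd2 |ip (v j) x| (abs_nonneg _) q (by linarith)
    have h3 : HasDerivAt (fun s : ℝ => s ^ 2) (2 * q) q := by
      have := hasDerivAt_pow 2 q
      simpa using this
    have h4 := ((h1.mul h2).const_mul (dt (v i) (v j) ^ 2)).mul h3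
    refine HasDerivAt.congr_deriv h4 ?_
    simp only [Pi.mul_apply]
    ring
  have h := hPh.neg.exp.mul hDD
  refine HasDerivAt.congr_deriv h ?_
  unfold Fd
  rw [DD_one]
  have hs : ∑ i, ∑ j, dt (v i) (v j) ^ 2 *
        (|ip (v i) x| ^ (q - 2) * |ip (v j) x| ^ (q - 2)) *
          (2 * q + q ^ 2 * (Real.log |ip (v i) x| + Real.log |ip (v j) x| - St v q x)) =
      ∑ i, ∑ j, dt (v i) (v j) ^ 2 *
        (|ip (v i) x| ^ (q - 2) * |ip (v j) x| ^ (q - 2)) *
          (2 * q + q ^ 2 * (Real.log |ip (v i) x| + Real.log |ip (v j) x|)) -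
      St v q x * ∑ i, ∑ j, dt (v i) (v j) ^ 2 *
        (|ip (v i) x| ^ (q - 2) * |ip (v j) x| ^ (q - 2)) * q ^ 2 := by
    rw [Finset.mul_sum, ← Finset.sum_sub_distrib]
    refine Finset.sum_congr rfl fun i _ => ?_
    rw [Finset.mul_sum, ← Finset.sum_sub_distrib]
    refine Finset.sum_congr rfl fun j _ => ?_
    ring
  rw [hs]
  simp only [Pi.neg_apply]
  ring

/-- integrand of `DAk` -/
def dak (p : ℝ) (v : κ → P2) (k : κ) (x : P2) : ℝ :=
  Real.exp (-(Ph p v one x)) * DD p v one x * (tau p v k x * Real.log (tau p v k x))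
    - G1 p v k x * Real.log (tau p v k x) - G1 p v k x

theorem log_tau (p : ℝ) (v : κ → P2) (k : κ) (x : P2) (hp : 1 < p) :
    Real.log (tau p v k x) = p * Real.log |ip (v k) x| := by
  unfold tau
  rcases eq_or_lt_of_le (abs_nonneg (ip (v k) x)) with h | h
  · rw [← h, Real.zero_rpow (by linarith)]
    simp
  · exact Real.log_rpow h p

theorem dt_symm (a b : P2) : dt a b ^ 2 = dt b a ^ 2 := by
  unfold dt; ring

theorem Fd_eq (v : κ → P2) (p : ℝ) (hp1 : 1 < p) (x : P2) :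
    Fd v p x = -(1 / p) * ∑ k, dak p v k x := by
  have hp0 : p ≠ 0 := by linarith
  set w : κ → κ → ℝ := fun i j => dt (v i) (v j) ^ 2 *
    (|ip (v i) x| ^ (p - 2) * |ip (v j) x| ^ (p - 2)) with hw
  have hws : ∀ i j, w i j = w j i := by
    intro i j
    simp only [hw]
    rw [dt_symm (v i) (v j)]
    ring
  set L : κ → ℝ := fun i => Real.log |ip (v i) x| with hL
  set E : ℝ := Real.exp (-(Ph p v one x)) with hE
  have hG : ∀ k, G1 p v k x = E * ∑ j, w k j * p ^ 2 := by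
    intro k
    unfold G1
    rw [← hE]
    congr 1
    refine Finset.sum_congr rfl fun j _ => ?_
    simp only [hw]
    ring
  have hD : DD p v one x = (1 / 2) * ∑ i, ∑ j, w i j * p ^ 2 := DD_one p v x
  have hF : Fd v p x = E * ((1 / 2) * ∑ i, ∑ j, w i j *
      (2 * p + p ^ 2 * (L i + L j - St v p x))) := rfl
  have hk : ∀ k, dak p v k x = E * DD p v one x * (|ip (v k) x| ^ p * (p * L k))
      - (E * ∑ j, w k j * p ^ 2) * (p * L k) - E * ∑ j, w k j * p ^ 2 := by
    intro k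
    unfold dak
    rw [log_tau p v k x hp1, hG k]
    rfl
  rw [Finset.sum_congr rfl fun k _ => hk k, Finset.sum_sub_distrib, Finset.sum_sub_distrib]
  have e1 : ∑ k, E * DD p v one x * (|ip (v k) x| ^ p * (p * L k)) =
      E * DD p v one x * (p * St v p x) := by
    rw [← Finset.mul_sum]
    congr 1
    unfold St
    rw [Finset.mul_sum]
    refine Finset.sum_congr rfl fun k _ => ?_
    simp only [hL]
    ring
  have e2 : ∑ k, (E * ∑ j, w k j * p ^ 2) * (p * L k) =
      E * p ^ 3 * ((1 / 2) * ∑ i, ∑ j, w i j * (L i + L j)) := by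
    have s1 : ∑ i, ∑ j, w i j * L j = ∑ i, ∑ j, w i j * L i := by
      rw [Finset.sum_comm]
      refine Finset.sum_congr rfl fun i _ => Finset.sum_congr rfl fun j _ => ?_
      rw [hws j i]
    have s2 : ∑ i, ∑ j, w i j * (L i + L j) = 2 * ∑ i, ∑ j, w i j * L i := by
      have : ∑ i, ∑ j, w i j * (L i + L j) = ∑ i, ∑ j, w i j * L i + ∑ i, ∑ j, w i j * L j := by
        rw [← Finset.sum_add_distrib]
        refine Finset.sum_congr rfl fun i _ => ?_
        rw [← Finset.sum_add_distrib]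
        refine Finset.sum_congr rfl fun j _ => ?_
        ring
      rw [this, s1]; ring
    rw [s2]
    have s3 : ∑ k, (E * ∑ j, w k j * p ^ 2) * (p * L k) = E * p ^ 3 * ∑ i, ∑ j, w i j * L i := by
      rw [Finset.mul_sum]
      refine Finset.sum_congr rfl fun i _ => ?_
      rw [Finset.mul_sum, Finset.mul_sum, Finset.sum_mul]
      refine Finset.sum_congr rfl fun j _ => ?_
      ring
    rw [s3]; ring
  have e3 : ∑ k, E * ∑ j, w k j * p ^ 2 = E * p ^ 2 * ∑ i, ∑ j, w i j := by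
    rw [Finset.mul_sum]
    refine Finset.sum_congr rfl fun i _ => ?_
    rw [Finset.mul_sum, Finset.mul_sum]
    refine Finset.sum_congr rfl fun j _ => ?_
    ring
  have e4 : ∑ i, ∑ j, w i j * p ^ 2 = p ^ 2 * ∑ i, ∑ j, w i j := by
    rw [Finset.mul_sum]
    refine Finset.sum_congr rfl fun i _ => ?_
    rw [Finset.mul_sum]
    refine Finset.sum_congr rfl fun j _ => ?_
    ring
  have e5 : ∑ i, ∑ j, w i j * (2 * p + p ^ 2 * (L i + L j - St v p x)) =
      2 * p * ∑ i, ∑ j, w i j + p ^ 2 * ∑ i, ∑ j, w i j * (L i + L j) -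
        p ^ 2 * St v p x * ∑ i, ∑ j, w i j := by
    rw [Finset.mul_sum, Finset.mul_sum, Finset.mul_sum, ← Finset.sum_add_distrib,
      ← Finset.sum_sub_distrib]
    refine Finset.sum_congr rfl fun i _ => ?_
    rw [Finset.mul_sum, Finset.mul_sum, Finset.mul_sum, ← Finset.sum_add_distrib,
      ← Finset.sum_sub_distrib]
    refine Finset.sum_congr rfl fun j _ => ?_
    ring
  rw [e1, e2, e3, hF, e5, hD, e4]
  field_simp
  ring

end

/-! ### The dominating function -/

theorem le_T (a t S : ℝ) (ha : 1 < a) (ht : 0 ≤ t) (hS : 0 ≤ S) (h : t ^ a ≤ S) : t ≤ 1 + S := by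
  rcases le_or_gt t 1 with h1 | h1
  · linarith
  · have h2 : t ^ (1 : ℝ) ≤ t ^ a := Real.rpow_le_rpow_of_exponent_le h1.le ha.le
    rw [Real.rpow_one] at h2
    linarith

theorem sub_one_le (a q t : ℝ) (ha : 1 < a) (haq : a ≤ q) (ht : 0 ≤ t) : t ^ a - 1 ≤ t ^ q := by
  rcases le_or_gt t 1 with h1 | h1
  · have h2 : t ^ a ≤ 1 := Real.rpow_le_one ht h1 (by linarith)
    have h3 : 0 ≤ t ^ q := Real.rpow_nonneg ht q
    linarith
  · have h2 : t ^ a ≤ t ^ q := Real.rpow_le_rpow_of_exponent_le h1.le haq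
    linarith

theorem pow_log_le (s0 s t T : ℝ) (hs0 : 0 < s0) (hs : s0 ≤ s) (hs2 : s ≤ 2) (ht : 0 ≤ t)
    (htT : t ≤ T) (hT : 1 ≤ T) : t ^ s * |Real.log t| ≤ (1 / s0 + 1) * T ^ 3 := by
  have hT3 : 1 ≤ T ^ 3 := one_le_pow₀ hT
  have hs0' : 0 < 1 / s0 := by positivity
  rcases eq_or_lt_of_le ht with h | h
  · rw [← h]
    simp only [Real.log_zero, abs_zero, mul_zero]
    positivity
  rcases le_or_gt t 1 with h1 | h1
  · have h2 := Real.abs_log_mul_self_rpow_lt t s h h1 (by linarith)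
    rw [abs_mul, abs_of_nonneg (Real.rpow_nonneg ht s), mul_comm] at h2
    have h3 : 1 / s ≤ 1 / s0 := one_div_le_one_div_of_le hs0 hs
    calc t ^ s * |Real.log t| ≤ 1 / s0 + 1 := by linarith
      _ = (1 / s0 + 1) * 1 := by ring
      _ ≤ (1 / s0 + 1) * T ^ 3 := mul_le_mul_of_nonneg_left hT3 (by linarith)
  · have h2 : |Real.log t| ≤ T := by
      rw [abs_of_nonneg (Real.log_nonneg h1.le)]
      have := Real.log_le_sub_one_of_pos h
      linarith
    have h3 : t ^ s ≤ T ^ 2 := by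
      have h4 : t ^ s ≤ t ^ (2 : ℝ) := Real.rpow_le_rpow_of_exponent_le h1.le hs2
      have h5 : t ^ (2 : ℝ) = t ^ 2 := Real.rpow_two t
      have h6 : t ^ 2 ≤ T ^ 2 := pow_le_pow_left₀ ht htT 2
      rw [h5] at h4
      exact h4.trans h6
    calc t ^ s * |Real.log t| ≤ T ^ 2 * T :=
          mul_le_mul h3 h2 (abs_nonneg _) (by positivity)
      _ = 1 * T ^ 3 := by ring
      _ ≤ (1 / s0 + 1) * T ^ 3 := mul_le_mul_of_nonneg_right (by linarith) (by positivity)

theorem pow_le_T (s t T : ℝ) (hs : 0 ≤ s) (hs1 : s ≤ 1) (ht : 0 ≤ t)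
    (htT : t ≤ T) (hT : 1 ≤ T) : t ^ s ≤ T := by
  rcases le_or_gt t 1 with h1 | h1
  · exact (Real.rpow_le_one ht h1 hs).trans hT
  · have h2 : t ^ s ≤ t ^ (1 : ℝ) := Real.rpow_le_rpow_of_exponent_le h1.le hs1
    rw [Real.rpow_one] at h2
    linarith

/-- the one-pair bound -/
theorem pair_le (a d q ti tj T Q : ℝ) (ha : 1 < a) (hd0 : 0 < d) (hd1 : d ≤ 1) (hq : a + d ≤ q)
    (hq2 : q < 2) (hti : 0 ≤ ti) (htj : 0 ≤ tj) (htiT : ti ≤ T) (htjT : tj ≤ T) (hT : 1 ≤ T)
    (M : ℝ) (hM : 0 ≤ M) (hQ : |Q| ≤ M * (1 / d + 1) * T ^ 3) :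
    (ti ^ (q - 2) * tj ^ (q - 2)) * |2 * q + q ^ 2 * (Real.log ti + Real.log tj - Q)| ≤
      (ti ^ (a - 2) * tj ^ (a - 2)) * ((4 + 8 * (1 / d + 1) + 4 * M * (1 / d + 1)) * T ^ 5) := by
  have hT0 : 0 ≤ T := by linarith
  set K : ℝ := 1 / d + 1 with hK
  have hK0 : 0 ≤ K := by positivity
  have hR : 0 ≤ (ti ^ (a - 2) * tj ^ (a - 2)) * ((4 + 8 * K + 4 * M * K) * T ^ 5) := by
    have := Real.rpow_nonneg hti (a - 2)
    have := Real.rpow_nonneg htj (a - 2)
    positivity
  rcases eq_or_lt_of_le hti with h | h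
  · subst h
    rw [Real.zero_rpow (sub_ne_zero.2 hq2.ne), zero_mul, zero_mul]
    exact hR
  rcases eq_or_lt_of_le htj with h' | h'
  · subst h'
    rw [Real.zero_rpow (sub_ne_zero.2 hq2.ne), mul_zero, zero_mul]
    exact hR
  have e1 : ti ^ (q - 2) = ti ^ (a - 2) * ti ^ (q - a) := by
    rw [← Real.rpow_add h]; ring_nf
  have e2 : tj ^ (q - 2) = tj ^ (a - 2) * tj ^ (q - a) := by
    rw [← Real.rpow_add h']; ring_nf
  have b1 : ti ^ (q - a) ≤ T := pow_le_T _ _ _ (by linarith) (by linarith) hti htiT hT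
  have b2 : tj ^ (q - a) ≤ T := pow_le_T _ _ _ (by linarith) (by linarith) htj htjT hT
  have c1 : ti ^ (q - a) * |Real.log ti| ≤ K * T ^ 3 :=
    pow_log_le d _ _ _ hd0 (by linarith) (by linarith) hti htiT hT
  have c2 : tj ^ (q - a) * |Real.log tj| ≤ K * T ^ 3 :=
    pow_log_le d _ _ _ hd0 (by linarith) (by linarith) htj htjT hT
  have p1 : 0 ≤ ti ^ (q - a) := Real.rpow_nonneg hti _
  have p2 : 0 ≤ tj ^ (q - a) := Real.rpow_nonneg htj _
  have hq0 : 0 ≤ q := by linarith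
  have hqq : q ^ 2 ≤ 4 := by nlinarith
  have habs : |2 * q + q ^ 2 * (Real.log ti + Real.log tj - Q)| ≤
      4 + 4 * (|Real.log ti| + |Real.log tj| + |Q|) := by
    have h1 : |2 * q + q ^ 2 * (Real.log ti + Real.log tj - Q)| ≤
        |2 * q| + |q ^ 2 * (Real.log ti + Real.log tj - Q)| := abs_add_le _ _
    have h2 : |2 * q| ≤ 4 := by rw [abs_of_nonneg (by linarith)]; linarith
    have h3 : |Real.log ti + Real.log tj - Q| ≤ |Real.log ti| + |Real.log tj| + |Q| := by
      have h31 := abs_sub (Real.log ti + Real.log tj) Q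
      have h32 := abs_add_le (Real.log ti) (Real.log tj)
      linarith
    have h4 : |q ^ 2 * (Real.log ti + Real.log tj - Q)| ≤
        4 * (|Real.log ti| + |Real.log tj| + |Q|) := by
      rw [abs_mul, abs_of_nonneg (by positivity : (0:ℝ) ≤ q ^ 2)]
      exact mul_le_mul hqq h3 (abs_nonneg _) (by norm_num)
    linarith
  have hT23 : T ^ 2 ≤ T ^ 5 := pow_le_pow_right₀ hT (by norm_num)
  have hT45 : T ^ 4 ≤ T ^ 5 := pow_le_pow_right₀ hT (by norm_num)
  have key : (ti ^ (q - a) * tj ^ (q - a)) *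
      (4 + 4 * (|Real.log ti| + |Real.log tj| + |Q|)) ≤ (4 + 8 * K + 4 * M * K) * T ^ 5 := by
    have k1 : ti ^ (q - a) * tj ^ (q - a) ≤ T ^ 2 := by
      calc ti ^ (q - a) * tj ^ (q - a) ≤ T * T := mul_le_mul b1 b2 p2 hT0
        _ = T ^ 2 := by ring
    have k2 : (ti ^ (q - a) * |Real.log ti|) * tj ^ (q - a) ≤ K * T ^ 3 * T :=
      mul_le_mul c1 b2 p2 (by positivity)
    have k3 : (tj ^ (q - a) * |Real.log tj|) * ti ^ (q - a) ≤ K * T ^ 3 * T :=
      mul_le_mul c2 b1 p1 (by positivity)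
    have k4 : (ti ^ (q - a) * tj ^ (q - a)) * |Q| ≤ T ^ 2 * (M * K * T ^ 3) :=
      mul_le_mul k1 hQ (abs_nonneg _) (by positivity)
    have e : (ti ^ (q - a) * tj ^ (q - a)) *
        (4 + 4 * (|Real.log ti| + |Real.log tj| + |Q|)) =
        4 * (ti ^ (q - a) * tj ^ (q - a)) + 4 * ((ti ^ (q - a) * |Real.log ti|) * tj ^ (q - a))
        + 4 * ((tj ^ (q - a) * |Real.log tj|) * ti ^ (q - a))
        + 4 * ((ti ^ (q - a) * tj ^ (q - a)) * |Q|) := by ring
    rw [e]
    have m1 : K * T ^ 3 * T ≤ K * T ^ 5 := by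
      calc K * T ^ 3 * T = K * T ^ 4 := by ring
        _ ≤ K * T ^ 5 := mul_le_mul_of_nonneg_left hT45 hK0
    have m2 : T ^ 2 * (M * K * T ^ 3) = M * K * T ^ 5 := by ring
    have m3 : (4 + 8 * K + 4 * M * K) * T ^ 5 = 4 * T ^ 5 + 8 * (K * T ^ 5) + 4 * (M * K * T ^ 5) := by
      ring
    rw [m3]
    linarith
  have hp : 0 ≤ ti ^ (a - 2) * tj ^ (a - 2) :=
    mul_nonneg (Real.rpow_nonneg hti _) (Real.rpow_nonneg htj _)
  calc (ti ^ (q - 2) * tj ^ (q - 2)) * |2 * q + q ^ 2 * (Real.log ti + Real.log tj - Q)|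
      ≤ (ti ^ (q - 2) * tj ^ (q - 2)) * (4 + 4 * (|Real.log ti| + |Real.log tj| + |Q|)) :=
        mul_le_mul_of_nonneg_left habs
          (mul_nonneg (Real.rpow_nonneg hti _) (Real.rpow_nonneg htj _))
    _ = (ti ^ (a - 2) * tj ^ (a - 2)) * ((ti ^ (q - a) * tj ^ (q - a)) *
          (4 + 4 * (|Real.log ti| + |Real.log tj| + |Q|))) := by
        rw [e1, e2]; ring
    _ ≤ _ := mul_le_mul_of_nonneg_left key hp

theorem T5_le (S : ℝ) (hS : 0 ≤ S) :
    Real.exp (-S) * (1 + S) ^ 5 ≤ 3840 * Real.exp (1 / 2) * Real.exp (-(S / 2)) := by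
  have h := Real.pow_div_factorial_le_exp (x := (1 + S) / 2) (by positivity) 5
  have h1 : (1 + S) ^ 5 ≤ 3840 * Real.exp ((1 + S) / 2) := by
    have e : ((1 + S) / 2) ^ 5 / (Nat.factorial 5 : ℝ) = (1 + S) ^ 5 / 3840 := by
      have : (Nat.factorial 5 : ℝ) = 120 := by norm_num [Nat.factorial]
      rw [this]; ring
    rw [e] at h
    linarith
  calc Real.exp (-S) * (1 + S) ^ 5 ≤ Real.exp (-S) * (3840 * Real.exp ((1 + S) / 2)) :=
        mul_le_mul_of_nonneg_left h1 (Real.exp_pos _).le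
    _ = 3840 * (Real.exp (-S) * Real.exp ((1 + S) / 2)) := by ring
    _ = 3840 * (Real.exp (1 / 2) * Real.exp (-(S / 2))) := by
        rw [← Real.exp_add, ← Real.exp_add]; ring_nf
    _ = _ := by ring

section
variable {κ : Type} [Fintype κ]

/-- domination of the derivative -/
theorem Fd_le (v : κ → P2) (a d q : ℝ) (ha : 1 < a) (hd0 : 0 < d) (hd1 : d ≤ 1)
    (hq : a + d ≤ q) (hq2 : q < 2) (x : P2) :
    |Fd v q x| ≤ (Real.exp (Fintype.card κ) *
      ((4 + 8 * (1 / d + 1) + 4 * (Fintype.card κ : ℝ) * (1 / d + 1)) *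
        (3840 * Real.exp (1 / 2)))) *
      (Real.exp (-(Ph a v one x / 2)) * DD a v one x) := by
  set N : ℝ := (Fintype.card κ : ℝ) with hN
  have hN0 : 0 ≤ N := Nat.cast_nonneg _
  set S : ℝ := Ph a v one x with hS
  have hSe : S = ∑ k, |ip (v k) x| ^ a := Ph_one a v x
  have hS0 : 0 ≤ S := by
    rw [hSe]
    exact Finset.sum_nonneg fun k _ => Real.rpow_nonneg (abs_nonneg _) _
  set T : ℝ := 1 + S with hT
  have hT1 : 1 ≤ T := by linarith
  have htk : ∀ k, |ip (v k) x| ≤ T := by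
    intro k
    refine le_T a _ S ha (abs_nonneg _) hS0 ?_
    rw [hSe]
    exact Finset.single_le_sum (f := fun k => |ip (v k) x| ^ a)
      (fun k _ => Real.rpow_nonneg (abs_nonneg _) _) (Finset.mem_univ k)
  set K : ℝ := 1 / d + 1 with hK
  have hK0 : 0 ≤ K := by positivity
  have hQ : |St v q x| ≤ N * K * T ^ 3 := by
    unfold St
    refine (Finset.abs_sum_le_sum_abs _ _).trans ?_
    have h1 : ∀ k ∈ (Finset.univ : Finset κ), |(|ip (v k) x| ^ q * Real.log |ip (v k) x|)| ≤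
        K * T ^ 3 := by
      intro k _
      rw [abs_mul, abs_of_nonneg (Real.rpow_nonneg (abs_nonneg _) q)]
      exact pow_log_le d q _ T hd0 (by linarith) hq2.le (abs_nonneg _) (htk k) hT1
    have h2 := Finset.sum_le_card_nsmul _ _ _ h1
    rw [nsmul_eq_mul, Finset.card_univ] at h2
    calc _ ≤ (Fintype.card κ : ℝ) * (K * T ^ 3) := h2
      _ = N * K * T ^ 3 := by rw [hN]; ring
  have hE : Real.exp (-(Ph q v one x)) ≤ Real.exp N * Real.exp (-S) := by
    rw [← Real.exp_add]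
    apply Real.exp_le_exp.2
    have h1 : S - N ≤ Ph q v one x := by
      rw [hSe, Ph_one]
      have h2 : ∑ k, (|ip (v k) x| ^ a - 1) ≤ ∑ k, |ip (v k) x| ^ q :=
        Finset.sum_le_sum fun k _ => sub_one_le a q _ ha (by linarith) (abs_nonneg _)
      rw [Finset.sum_sub_distrib] at h2
      simp only [Finset.sum_const, Finset.card_univ, nsmul_eq_mul, mul_one] at h2
      linarith
    linarith
  set C : ℝ := 4 + 8 * K + 4 * N * K with hC
  have hC0 : 0 ≤ C := by positivity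
  set W : ℝ := ∑ i, ∑ j, dt (v i) (v j) ^ 2 *
    (|ip (v i) x| ^ (a - 2) * |ip (v j) x| ^ (a - 2)) with hW
  have hW0 : 0 ≤ W := by
    refine Finset.sum_nonneg fun i _ => Finset.sum_nonneg fun j _ => ?_
    have := Real.rpow_nonneg (abs_nonneg (ip (v i) x)) (a - 2)
    have := Real.rpow_nonneg (abs_nonneg (ip (v j) x)) (a - 2)
    positivity
  have hDDa : W ≤ 2 * DD a v one x := by
    rw [DD_one]
    have e : ∑ i, ∑ j, dt (v i) (v j) ^ 2 *
        (|ip (v i) x| ^ (a - 2) * |ip (v j) x| ^ (a - 2)) * a ^ 2 = a ^ 2 * W := by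
      rw [hW, Finset.mul_sum]
      refine Finset.sum_congr rfl fun i _ => ?_
      rw [Finset.mul_sum]
      refine Finset.sum_congr rfl fun j _ => ?_
      ring
    rw [e]
    have h1 : 1 ≤ a ^ 2 := one_le_pow₀ ha.le
    have h2 : 0 ≤ (a ^ 2 - 1) * W := mul_nonneg (by linarith) hW0
    have h3 : 2 * ((1 / 2) * (a ^ 2 * W)) = (a ^ 2 - 1) * W + W := by ring
    rw [h3]
    linarith
  have hsum : |∑ i, ∑ j, dt (v i) (v j) ^ 2 *
    (|ip (v i) x| ^ (q - 2) * |ip (v j) x| ^ (q - 2)) *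
      (2 * q + q ^ 2 * (Real.log |ip (v i) x| + Real.log |ip (v j) x| - St v q x))| ≤
      W * (C * T ^ 5) := by
    refine (Finset.abs_sum_le_sum_abs _ _).trans ?_
    rw [hW, Finset.sum_mul]
    refine Finset.sum_le_sum fun i _ => ?_
    refine (Finset.abs_sum_le_sum_abs _ _).trans ?_
    rw [Finset.sum_mul]
    refine Finset.sum_le_sum fun j _ => ?_
    have h1 := pair_le a d q |ip (v i) x| |ip (v j) x| T (St v q x) ha hd0 hd1 hq hq2
      (abs_nonneg _) (abs_nonneg _) (htk i) (htk j) hT1 N hN0 hQ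
    rw [abs_mul, abs_of_nonneg (mul_nonneg (sq_nonneg _)
      (mul_nonneg (Real.rpow_nonneg (abs_nonneg _) _) (Real.rpow_nonneg (abs_nonneg _) _)))]
    calc _ = dt (v i) (v j) ^ 2 * ((|ip (v i) x| ^ (q - 2) * |ip (v j) x| ^ (q - 2)) *
          |2 * q + q ^ 2 * (Real.log |ip (v i) x| + Real.log |ip (v j) x| - St v q x)|) := by ring
      _ ≤ dt (v i) (v j) ^ 2 * ((|ip (v i) x| ^ (a - 2) * |ip (v j) x| ^ (a - 2)) *
          (C * T ^ 5)) := mul_le_mul_of_nonneg_left h1 (sq_nonneg _)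
      _ = _ := by ring
  unfold Fd
  rw [abs_mul, abs_of_nonneg (Real.exp_pos _).le, abs_mul,
    abs_of_nonneg (by norm_num : (0:ℝ) ≤ 1 / 2)]
  calc _ ≤ (Real.exp N * Real.exp (-S)) * ((1 / 2) * (W * (C * T ^ 5))) := by
        refine mul_le_mul hE (mul_le_mul_of_nonneg_left hsum (by norm_num)) (by positivity)
          (by positivity)
    _ = (Real.exp N * C * (W / 2)) * (Real.exp (-S) * T ^ 5) := by ring
    _ ≤ (Real.exp N * C * (W / 2)) * (3840 * Real.exp (1 / 2) * Real.exp (-(S / 2))) :=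
        mul_le_mul_of_nonneg_left (T5_le S hS0) (by positivity)
    _ = (Real.exp N * (C * (3840 * Real.exp (1 / 2)))) * (Real.exp (-(S / 2)) * (W / 2)) := by ring
    _ ≤ (Real.exp N * (C * (3840 * Real.exp (1 / 2)))) *
        (Real.exp (-(S / 2)) * DD a v one x) := by
        refine mul_le_mul_of_nonneg_left (mul_le_mul_of_nonneg_left (by linarith) (Real.exp_pos _).le)
          (by positivity)

/-! ### Scaling: integrability of the dominating function -/

theorem ip_smul (c : ℝ) (w x : P2) : ip (c • w) x = c * ip w x := by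
  simp only [ip, Prod.smul_fst, Prod.smul_snd, smul_eq_mul]; ring

theorem dt_smul (c : ℝ) (w z : P2) : dt (c • w) (c • z) = c ^ 2 * dt w z := by
  simp only [dt, Prod.smul_fst, Prod.smul_snd, smul_eq_mul]; ring

theorem bound_integrable (h : S_IA) (v : κ → P2) (hv : Spans v) (a : ℝ) (ha : 1 < a)
    (ha2 : a ≤ 2) :
    Integrable (fun x => Real.exp (-(Ph a v one x / 2)) * DD a v one x) := by
  set c : ℝ := (1 / 2 : ℝ) ^ (1 / a) with hc
  have hc0 : 0 < c := Real.rpow_pos_of_pos (by norm_num) _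
  have hca : c ^ a = 1 / 2 := by
    rw [hc, ← Real.rpow_mul (by norm_num), one_div_mul_cancel (by linarith), Real.rpow_one]
  have hsp : Spans (fun k => c • v k) := by
    obtain ⟨i, j, hij⟩ := hv
    refine ⟨i, j, ?_⟩
    rw [dt_smul]
    exact mul_ne_zero (by positivity) hij
  have h1 := (h κ a ha ha2 (fun k => c • v k) hsp).1
  have hfun : (fun x => Real.exp (-(Ph a (fun k => c • v k) one x)) *
      DD a (fun k => c • v k) one x) =
      fun x => (1 / 4) * (Real.exp (-(Ph a v one x / 2)) * DD a v one x) := by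
    funext x
    have e1 : Ph a (fun k => c • v k) one x = Ph a v one x / 2 := by
      rw [Ph_one, Ph_one, Finset.sum_div]
      refine Finset.sum_congr rfl fun k _ => ?_
      rw [ip_smul, abs_mul, abs_of_pos hc0, Real.mul_rpow hc0.le (abs_nonneg _), hca]
      ring
    have e2 : DD a (fun k => c • v k) one x = (1 / 4) * DD a v one x := by
      rw [DD_one, DD_one]
      have e3 : c ^ 2 * c ^ (a - 2) = 1 / 2 := by
        rw [← hca, ← Real.rpow_natCast c 2, ← Real.rpow_add hc0]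
        norm_num
      have e4 : ∑ i, ∑ j, dt (c • v i) (c • v j) ^ 2 *
          (|ip (c • v i) x| ^ (a - 2) * |ip (c • v j) x| ^ (a - 2)) * a ^ 2 =
          (1 / 4) * ∑ i, ∑ j, dt (v i) (v j) ^ 2 *
          (|ip (v i) x| ^ (a - 2) * |ip (v j) x| ^ (a - 2)) * a ^ 2 := by
        rw [Finset.mul_sum]
        refine Finset.sum_congr rfl fun i _ => ?_
        rw [Finset.mul_sum]
        refine Finset.sum_congr rfl fun j _ => ?_
        rw [ip_smul, ip_smul, dt_smul, abs_mul, abs_mul, abs_of_pos hc0,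
          Real.mul_rpow hc0.le (abs_nonneg _), Real.mul_rpow hc0.le (abs_nonneg _)]
        calc _ = (c ^ 2 * c ^ (a - 2)) ^ 2 * (dt (v i) (v j) ^ 2 *
            (|ip (v i) x| ^ (a - 2) * |ip (v j) x| ^ (a - 2)) * a ^ 2) := by ring
          _ = _ := by rw [e3]; ring
      rw [e4]; ring
    rw [e1, e2]; ring
  rw [hfun] at h1
  have h2 := h1.const_mul 4
  refine h2.congr (Filter.Eventually.of_forall fun x => ?_)
  show 4 * ((1 / 4) * (Real.exp (-(Ph a v one x / 2)) * DD a v one x)) = _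
  ring

end

/-! ### The theorem -/

theorem DPA (h : S_IA) : S_DPA := by
  intro κ _ p hp1 hp2 v hv
  -- exponents
  set a : ℝ := (1 + p) / 2 with ha
  have ha1 : 1 < a := by rw [ha]; linarith
  have hap : a < p := by rw [ha]; linarith
  set d : ℝ := (p - a) / 2 with hd
  have hd0 : 0 < d := by rw [hd]; linarith
  have hd1 : d ≤ 1 := by rw [hd]; linarith
  have hIAp := h κ p hp1 hp2.le v hv
  have hdak : ∀ k, Integrable (dak p v k) := by
    intro k
    obtain ⟨-, h2, h3, -, h5⟩ := hIAp.2.2 k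
    exact (h2.sub h5).sub h3
  have hFdint : Integrable (Fd v p) := by
    have h1 : Integrable (fun x => -(1 / p) * ∑ k, dak p v k x) :=
      (integrable_finset_sum _ fun k _ => hdak k).const_mul _
    refine h1.congr (Filter.Eventually.of_forall fun x => ?_)
    exact (Fd_eq v p hp1 x).symm
  set U : Set ℝ := Ioo (a + d) 2 with hU
  have hUp : U ∈ 𝓝 p := by
    refine Ioo_mem_nhds ?_ hp2
    rw [hd]; linarith
  set Cst : ℝ := Real.exp (Fintype.card κ) *
      ((4 + 8 * (1 / d + 1) + 4 * (Fintype.card κ : ℝ) * (1 / d + 1)) *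
        (3840 * Real.exp (1 / 2))) with hCst
  have hder := hasDerivAt_integral_of_dominated_loc_of_deriv_le (μ := (volume : Measure P2))
    (F := fun q x => Fq v q x) (F' := fun q x => Fd v q x) (x₀ := p) (s := U)
    (bound := fun x => Cst * (Real.exp (-(Ph a v one x / 2)) * DD a v one x))
    hUp
    (by
      filter_upwards [hUp] with q hq
      have hq1 : 1 < q := by have := hq.1; linarith
      exact (h κ q hq1 hq.2.le v hv).1.aestronglyMeasurable)
    hIAp.1
    hFdint.aestronglyMeasurable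
    (Filter.Eventually.of_forall fun x q hq => by
      rw [Real.norm_eq_abs]
      exact Fd_le v a d q ha1 hd0 hd1 hq.1.le hq.2 x)
    ((bound_integrable h v hv a ha1 (by linarith)).const_mul _)
    (Filter.Eventually.of_forall fun x q hq => by
      have hq1 : 1 < q := by have := hq.1; linarith
      exact hasDeriv_Fq v q hq1 hq.2 x)
  have h2 := hder.2
  have e : ∫ x, Fd v p x = -(1 / p) * ∑ k, DAk p v k := by
    have e1 : ∫ x, Fd v p x = ∫ x, -(1 / p) * ∑ k, dak p v k x :=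
      integral_congr_ae (Filter.Eventually.of_forall fun x => Fd_eq v p hp1 x)
    rw [e1, integral_const_mul, integral_finset_sum _ fun k _ => hdak k]
    rfl
  rw [e] at h2
  exact h2

end Pool.Agent.H553.PL.DPA
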